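import Pool.Agent.Helper40.TGF.Defs

/-!
Module Basic (owner: helper40).  Simple lemmas on the definitions.
-/

set_option autoImplicit false

open Filter Topology

namespace Pool.Agent.Helper34.TG

universe u

section unif

variable {X : Type u} [NormedAddCommGroup X] [NormedSpace ℝ X]

/-- uniform choice of parameters for a finite set of points -/
lemma unif {α : Type*} (Q : α → Finset (X →L[ℝ] ℝ) → ℝ → Prop)
    (hQ : ∀ x Ψ Ψ' μ μ', Q x Ψ μ → Ψ ⊆ Ψ' → 0 < μ' → μ' ≤ μ → Q x Ψ' μ')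
    {S : Set α} (hS : S.Finite) (h : ∀ x ∈ S, ∃ Ψ μ, 0 < μ ∧ Q x Ψ μ) :
    ∃ Ψ μ, 0 < μ ∧ ∀ x ∈ S, Q x Ψ μ := by
  classical
  induction S, hS using Set.Finite.induction_on with
  | empty => exact ⟨∅, 1, one_pos, by simp⟩
  | @insert x S hx hS ih =>
    obtain ⟨Ψ, μ, hμ, h1⟩ := ih fun y hy => h y (Set.mem_insert_of_mem x hy)
    obtain ⟨Ψ', μ', hμ', h2⟩ := h x (Set.mem_insert x S)
    refine ⟨Ψ ∪ Ψ', min μ μ', lt_min hμ hμ', ?_⟩
    intro y hy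
    rcases Set.mem_insert_iff.1 hy with rfl | hy
    · exact hQ _ _ _ _ _ h2 Finset.subset_union_right (lt_min hμ hμ') (min_le_right _ _)
    · exact hQ _ _ _ _ _ (h1 y hy) Finset.subset_union_left (lt_min hμ hμ') (min_le_left _ _)

lemma Nb.mono {Ψ Ψ' : Finset (X →L[ℝ] ℝ)} {ε ε' : ℝ} {x y : X} (h : Nb Ψ' ε' x y) (hΨ : Ψ ⊆ Ψ')
    (hε : ε' ≤ ε) : Nb Ψ ε x y := fun ψ hψ => (h ψ (hΨ hψ)).trans hε

lemma Base.mono {φ : Seminorm ℝ X} {x : X} {R R' : ℝ} (h : Base φ x R) (hR : R' ≤ R) :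
    Base φ x R' := by
  obtain ⟨K, Ψ, ε, hε, h⟩ := h
  exact ⟨K, Ψ, ε, hε, fun y hy => h y (hy.trans hR)⟩

lemma Tame.mono {φ : Seminorm ℝ X} {α α' : Ordinal.{u}} {k : ℕ} {x : X} {R R' : ℝ}
    (h : Tame φ α k x R) (hα : α ≤ α') (hR : R' ≤ R) : Tame φ α' k x R' := by
  cases h with
  | base h => exact Tame.base (h.mono hR)
  | step Ψ ε η s hε hη hs b hb h =>
    exact Tame.step Ψ ε η s hε hη hs b
      (fun y h1 h2 h3 h4 => (hb y (h1.trans hR) h2 h3 h4).trans_le hα)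
      (fun y h1 h2 h3 h4 => h y (h1.trans hR) h2 h3 h4)

lemma Gained.mono {φ : Seminorm ℝ X} {K K' : ℝ} {y : X} (h : Gained φ K' y) (hK : K ≤ K') :
    Gained φ K y := by
  obtain ⟨d, hd⟩ := h
  exact ⟨d, lt_of_le_of_lt (mul_le_mul_of_nonneg_right hK (sq_nonneg _)) hd⟩

/-- points gained stay gained -/
lemma Gained.stable {φ : Seminorm ℝ X} (hφ : ∀ x, φ x ≤ ‖x‖) {K : ℝ} {p : X}
    (h : Gained φ K p) : ∃ (Ψ : Finset (X →L[ℝ] ℝ)) (μ : ℝ), 0 < μ ∧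
      ∀ x', Nb Ψ μ p x' → φ x' ≤ φ p + μ → Gained φ K x' := by
  classical
  obtain ⟨d, hd⟩ := h
  obtain ⟨f, hf1, hf2⟩ := exists_subgradient φ hφ (p + d)
  obtain ⟨f', hf'1, hf'2⟩ := exists_subgradient φ hφ (p - d)
  refine ⟨{f, f'}, (sd φ p d - K * ‖d‖ ^ 2) / 8, by linarith, ?_⟩
  intro x' h1 h2
  refine ⟨d, ?_⟩
  have h3 := (abs_le.1 (h1 f (by simp))).1
  have h4 := (abs_le.1 (h1 f' (by simp))).1
  have h5 := hf2 (x' + d)
  have h6 := hf'2 (x' - d)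
  have h7 : f (x' + d) = f (p + d) + f (x' - p) := by rw [← map_add]; congr 1; abel
  have h8 : f' (x' - d) = f' (p - d) + f' (x' - p) := by rw [← map_add]; congr 1; abel
  unfold sd at *
  linarith

lemma phi_le {φ : Seminorm ℝ X} (hφ : ∀ x, φ x ≤ ‖x‖) (x y : X) : φ y ≤ φ x + ‖y - x‖ := by
  have h := map_add_le_add φ x (y - x)
  rw [add_sub_cancel] at h
  linarith [hφ (y - x)]

/-- slack in a weak neighbourhood -/
lemma slack {Ψ : Finset (X →L[ℝ] ℝ)} {ε : ℝ} {v : X} (h : ∀ ψ ∈ Ψ, |ψ v| < ε) :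
    ∃ μ : ℝ, 0 < μ ∧ ∀ v' : X, (∀ ψ ∈ Ψ, |ψ (v' - v)| ≤ μ) → ∀ ψ ∈ Ψ, |ψ v'| < ε := by
  classical
  induction Ψ using Finset.induction_on with
  | empty => exact ⟨1, one_pos, by simp⟩
  | @insert ψ Ψ hψ ih =>
    obtain ⟨μ, hμ, h1⟩ := ih fun ψ' h' => h ψ' (Finset.mem_insert_of_mem h')
    have h2 := h ψ (Finset.mem_insert_self _ _)
    refine ⟨min μ ((ε - |ψ v|) / 2), lt_min hμ (by linarith), ?_⟩
    intro v' hv' ψ' hψ'
    rcases Finset.mem_insert.1 hψ' with rfl | hψ'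
    · have h3 := hv' ψ' (Finset.mem_insert_self _ _)
      have h4 : ψ' v' = ψ' v + ψ' (v' - v) := by rw [← map_add]; congr 1; abel
      rw [h4]
      have h5 := abs_add_le (ψ' v) (ψ' (v' - v))
      have h6 := h3.trans (min_le_right _ _)
      linarith
    · exact h1 v' (fun ψ'' h'' => (hv' ψ'' (Finset.mem_insert_of_mem h'')).trans
        (min_le_left _ _)) ψ' hψ'

end unif

end Pool.Agent.Helper34.TG
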