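import Pool.Agent.Helper40.TGF.Defs
import Pool.Agent.Helper6.TGC.Rosenthal

/-!
Module C0.  Bessaga-Pelczynski: bounded signed sums of vectors of norm at least `a > 0` give a copy
of `c₀`.
-/

set_option autoImplicit false

open Filter Topology
open scoped ENNReal BigOperators ZeroAtInfty

namespace Pool.Agent.Helper34.TG

universe u

variable {X : Type u} [NormedAddCommGroup X] [NormedSpace ℝ X]

/-- bounded sign sums give an unconditional bound for every functional -/
lemma sum_abs_le_of_signs (z : ℕ → X) (C : ℝ)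
    (hC : ∀ (n : ℕ) (θ : ℕ → ℝ), (∀ i, θ i = 1 ∨ θ i = -1) →
      ‖∑ i ∈ Finset.range n, θ i • z i‖ ≤ C) (f : X →L[ℝ] ℝ) (hf : ‖f‖ ≤ 1) (F : Finset ℕ) :
    ∑ i ∈ F, |f (z i)| ≤ C := by
  obtain ⟨n, hn⟩ : ∃ n, F ⊆ Finset.range n := ⟨F.sup id + 1, fun i hi => by
    rw [Finset.mem_range]
    exact Nat.lt_succ_of_le (Finset.le_sup (f := id) hi)⟩
  set θ : ℕ → ℝ := fun i => if 0 ≤ f (z i) then 1 else -1 with hθ
  have h1 := hC n θ (fun i => by
    simp only [hθ]
    split_ifs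
    · exact Or.inl rfl
    · exact Or.inr rfl)
  calc ∑ i ∈ F, |f (z i)| ≤ ∑ i ∈ Finset.range n, |f (z i)| :=
        Finset.sum_le_sum_of_subset_of_nonneg hn fun _ _ _ => abs_nonneg _
    _ = f (∑ i ∈ Finset.range n, θ i • z i) := by
        rw [map_sum]
        refine Finset.sum_congr rfl fun i _ => ?_
        rw [map_smul, smul_eq_mul]
        simp only [hθ]
        split_ifs with h
        · rw [abs_of_nonneg h, one_mul]
        · rw [abs_of_neg (not_le.1 h)]; ring
    _ ≤ ‖f (∑ i ∈ Finset.range n, θ i • z i)‖ := Real.le_norm_self _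
    _ ≤ ‖f‖ * ‖∑ i ∈ Finset.range n, θ i • z i‖ := f.le_opNorm _
    _ ≤ 1 * C := by
        apply mul_le_mul hf h1 (norm_nonneg _) zero_le_one
    _ = C := one_mul C

/-- Let `‖f (l)‖ ≤ 1`, `f l (z l) ≥ a`, small off-diagonal rows, all functionals of norm at most one
have `∑ |h (z i)| ≤ C`.  Then the span of `z` is isomorphic to `c₀`. -/
lemma containsC0_of_diagonal [CompleteSpace X] (z : ℕ → X) (a C : ℝ) (ha : 0 < a) (hC0 : 0 ≤ C)
    (hC : ∀ f : X →L[ℝ] ℝ, ‖f‖ ≤ 1 → ∀ F : Finset ℕ, ∑ i ∈ F, |f (z i)| ≤ C)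
    (f : ℕ → X →L[ℝ] ℝ) (hf : ∀ l, ‖f l‖ ≤ 1) (hfz : ∀ l, a ≤ f l (z l))
    (hoff : ∀ l, ∀ F : Finset ℕ, l ∉ F → ∑ i ∈ F, |f l (z i)| ≤ a / 2) :
    ContainsC0 X := by
  classical
  -- upper estimate for finite sums
  have hup : ∀ (F : Finset ℕ) (b : ℕ → ℝ) (B : ℝ), 0 ≤ B → (∀ i ∈ F, |b i| ≤ B) →
      ‖∑ i ∈ F, b i • z i‖ ≤ B * C := by
    intro F b B hB hb
    obtain ⟨g, hg1, hg2⟩ := exists_dual_vector'' ℝ (∑ i ∈ F, b i • z i)
    have hg2' : g (∑ i ∈ F, b i • z i) = ‖∑ i ∈ F, b i • z i‖ := by simpa using hg2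
    rw [← hg2', map_sum]
    calc ∑ i ∈ F, g (b i • z i) ≤ ∑ i ∈ F, B * |g (z i)| := by
          refine Finset.sum_le_sum fun i hi => ?_
          rw [map_smul, smul_eq_mul]
          refine (le_abs_self _).trans ?_
          rw [abs_mul]
          exact mul_le_mul_of_nonneg_right (hb i hi) (abs_nonneg _)
      _ = B * ∑ i ∈ F, |g (z i)| := (Finset.mul_sum _ _ _).symm
      _ ≤ B * C := mul_le_mul_of_nonneg_left (hC g hg1 F) hB
  -- lower estimate
  have hlow : ∀ (F : Finset ℕ) (b : ℕ → ℝ) (B : ℝ) (l : ℕ), l ∈ F → 0 ≤ B →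
      (∀ i ∈ F, |b i| ≤ B) → a * |b l| - a / 2 * B ≤ ‖∑ i ∈ F, b i • z i‖ := by
    intro F b B l hl hB hb
    have h1 : |f l (∑ i ∈ F, b i • z i)| ≤ ‖∑ i ∈ F, b i • z i‖ := by
      refine (f l).le_opNorm _ |>.trans ?_
      calc ‖f l‖ * ‖∑ i ∈ F, b i • z i‖ ≤ 1 * ‖∑ i ∈ F, b i • z i‖ :=
            mul_le_mul_of_nonneg_right (hf l) (norm_nonneg _)
        _ = _ := one_mul _
    refine le_trans ?_ h1
    have h2 : f l (∑ i ∈ F, b i • z i) = b l * f l (z l) +
        ∑ i ∈ F.erase l, b i * f l (z i) := by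
      rw [map_sum, ← Finset.add_sum_erase F _ hl]
      simp [smul_eq_mul]
    rw [h2]
    have h3 : |∑ i ∈ F.erase l, b i * f l (z i)| ≤ a / 2 * B := by
      calc |∑ i ∈ F.erase l, b i * f l (z i)| ≤ ∑ i ∈ F.erase l, |b i * f l (z i)| :=
            Finset.abs_sum_le_sum_abs _ _
        _ ≤ ∑ i ∈ F.erase l, B * |f l (z i)| := by
            refine Finset.sum_le_sum fun i hi => ?_
            rw [abs_mul]
            exact mul_le_mul_of_nonneg_right (hb i (Finset.mem_of_mem_erase hi)) (abs_nonneg _)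
        _ = B * ∑ i ∈ F.erase l, |f l (z i)| := (Finset.mul_sum _ _ _).symm
        _ ≤ B * (a / 2) := mul_le_mul_of_nonneg_left (hoff l _ (Finset.notMem_erase l F)) hB
        _ = a / 2 * B := mul_comm _ _
    have h4 : a * |b l| ≤ |b l * f l (z l)| := by
      rw [abs_mul, mul_comm]
      exact mul_le_mul_of_nonneg_left ((hfz l).trans (le_abs_self _)) (abs_nonneg _)
    have h5 := abs_sub_abs_le_abs_sub (b l * f l (z l)) (-∑ i ∈ F.erase l, b i * f l (z i))
    rw [abs_neg, sub_neg_eq_add] at h5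
    linarith
  have hbnd : ∀ (b : C₀(ℕ, ℝ)) (i : ℕ), |b i| ≤ ‖b‖ := by
    intro b i
    rw [← ZeroAtInftyContinuousMap.norm_toBCF_eq_norm]
    exact b.toBCF.norm_coe_le_norm i
  have hsummable : ∀ b : C₀(ℕ, ℝ), Summable fun i => b i • z i := by
    intro b
    rw [summable_iff_vanishing_norm]
    intro ε hε
    have h1 : Tendsto b (cocompact ℕ) (𝓝 0) := b.zero_at_infty'
    rw [cocompact_eq_cofinite] at h1
    have h2 : ∀ᶠ i in cofinite, |b i| < ε / (C + 1) := by
      have h3 := h1.norm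
      rw [norm_zero] at h3
      exact h3.eventually (eventually_lt_nhds (by positivity))
    rw [eventually_cofinite] at h2
    refine ⟨h2.toFinset, fun t ht => ?_⟩
    have h3 := hup t b (ε / (C + 1)) (by positivity) (by
      intro i hi
      have h4 : i ∉ h2.toFinset := Finset.disjoint_left.1 ht hi
      rw [Set.Finite.mem_toFinset] at h4
      simp only [Set.mem_ofPred_eq, not_not] at h4
      exact h4.le)
    refine h3.trans_lt ?_
    rw [div_mul_eq_mul_div, div_lt_iff₀ (by positivity)]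
    nlinarith
  let T₀ : C₀(ℕ, ℝ) →ₗ[ℝ] X :=
    { toFun := fun b => ∑' i, b i • z i
      map_add' := by
        intro b c
        rw [← (hsummable b).tsum_add (hsummable c)]
        refine tsum_congr fun i => ?_
        rw [ZeroAtInftyContinuousMap.add_apply, add_smul]
      map_smul' := by
        intro r b
        rw [RingHom.id_apply, ← (hsummable b).tsum_const_smul]
        refine tsum_congr fun i => ?_
        rw [ZeroAtInftyContinuousMap.smul_apply, smul_eq_mul, mul_smul] }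
  have hT₀ : ∀ b, Tendsto (fun t : Finset ℕ => ‖∑ i ∈ t, b i • z i‖) atTop (𝓝 ‖T₀ b‖) :=
    fun b => (hsummable b).hasSum.norm
  let T : C₀(ℕ, ℝ) →L[ℝ] X := T₀.mkContinuous C (by
    intro b
    refine le_of_tendsto (hT₀ b) (Eventually.of_forall fun t => ?_)
    rw [mul_comm]
    exact hup t b ‖b‖ (norm_nonneg _) fun i _ => hbnd b i)
  have hTlow : ∀ b : C₀(ℕ, ℝ), a / 2 * ‖b‖ ≤ ‖T b‖ := by
    intro b
    have h1 : ∀ l, a * |b l| - a / 2 * ‖b‖ ≤ ‖T b‖ := by
      intro l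
      refine ge_of_tendsto (hT₀ b) ?_
      filter_upwards [eventually_ge_atTop ({l} : Finset ℕ)] with t ht
      exact hlow t b ‖b‖ l (ht (Finset.mem_singleton_self l)) (norm_nonneg _)
        fun i _ => hbnd b i
    have h2 : ‖b‖ ≤ (‖T b‖ + a / 2 * ‖b‖) / a := by
      nth_rewrite 1 [← ZeroAtInftyContinuousMap.norm_toBCF_eq_norm]
      rw [BoundedContinuousFunction.norm_le (by positivity)]
      intro l
      rw [le_div_iff₀ ha]
      have h3 := h1 l
      have h4 : ‖b.toBCF l‖ = |b l| := rfl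
      rw [h4]
      linarith
    rw [le_div_iff₀ ha] at h2
    linarith
  have hanti : AntilipschitzWith (Real.toNNReal (2 / a)) T := by
    apply ContinuousLinearMap.antilipschitz_of_bound
    intro b
    rw [Real.coe_toNNReal _ (by positivity)]
    have h1 := hTlow b
    rw [div_mul_eq_mul_div, le_div_iff₀ ha]
    linarith
  have hcl : IsClosed (Set.range T) := hanti.isClosed_range T.uniformContinuous
  refine ⟨(T : C₀(ℕ, ℝ) →ₗ[ℝ] X).range, ?_, ⟨T.equivRange hanti.injective hcl⟩⟩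
  have h1 : (((T : C₀(ℕ, ℝ) →ₗ[ℝ] X).range : Submodule ℝ X) : Set X) = Set.range T := by
    ext v
    simp [LinearMap.mem_range]
  rw [h1]
  exact hcl

/-- If `‖z i‖ ≥ a > 0` and all finite sign sums are bounded by `C`, then `X` contains `c₀`.
Proof: `∑ i < n, |f (z i)| ≤ C ‖f‖` for every functional `f`, hence
`‖∑ i ∈ F, a i • z i‖ ≤ C * max |a i|`.  Norming functionals `f j` of `z j`, `‖f j‖ ≤ 1`,
`f j (z j) = ‖z j‖ ≥ a`; Rosenthal's lemma for `|f j (z i)|` with `ε = a / 2`; the operator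
`T b = ∑' l, b l • z (g l)` on `c₀` satisfies `(a / 2) ‖b‖ ≤ ‖T b‖ ≤ C ‖b‖`;
`ContinuousLinearMap.equivRange`. -/
theorem containsC0_of_signs [CompleteSpace X] (z : ℕ → X) (a C : ℝ) (ha : 0 < a)
    (hz : ∀ i, a ≤ ‖z i‖)
    (hC : ∀ (n : ℕ) (θ : ℕ → ℝ), (∀ i, θ i = 1 ∨ θ i = -1) →
      ‖∑ i ∈ Finset.range n, θ i • z i‖ ≤ C) : ContainsC0 X := by
  classical
  have hC' := sum_abs_le_of_signs z C hC
  have hC0 : 0 ≤ C := by simpa using hC 0 (fun _ => 1) (fun _ => Or.inl rfl)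
  have hdual : ∀ j, ∃ f : X →L[ℝ] ℝ, ‖f‖ ≤ 1 ∧ a ≤ f (z j) := by
    intro j
    obtain ⟨g, hg1, hg2⟩ := exists_dual_vector'' ℝ (z j)
    have hg2' : g (z j) = ‖z j‖ := by simpa using hg2
    exact ⟨g, hg1, by rw [hg2']; exact hz j⟩
  choose f hf1 hf2 using hdual
  obtain ⟨n, hn⟩ := exists_nat_ge (C / (a / 2))
  rw [div_le_iff₀ (by positivity)] at hn
  obtain ⟨g, hg, hg2⟩ := Pool.Agent.Helper6.TGC.rosenthal (ENNReal.ofReal (a / 2)) ENNReal.ofReal_ne_top n
    (fun j i => ENNReal.ofReal |f j (z i)|) (by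
      intro j
      calc ∑' i, (if i = j then 0 else ENNReal.ofReal |f j (z i)|)
          ≤ ∑' i, ENNReal.ofReal |f j (z i)| := by
            refine ENNReal.tsum_le_tsum fun i => ?_
            split_ifs
            · exact zero_le
            · exact le_rfl
        _ ≤ ENNReal.ofReal C := by
            rw [ENNReal.tsum_eq_iSup_sum]
            refine iSup_le fun F => ?_
            rw [← ENNReal.ofReal_sum_of_nonneg fun _ _ => abs_nonneg _]
            exact ENNReal.ofReal_le_ofReal (hC' (f j) (hf1 j) F)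
        _ ≤ n * ENNReal.ofReal (a / 2) := by
            rw [← ENNReal.ofReal_natCast, ← ENNReal.ofReal_mul (Nat.cast_nonneg n)]
            exact ENNReal.ofReal_le_ofReal hn)
  refine containsC0_of_diagonal (fun l => z (g l)) a C ha hC0 ?_ (fun l => f (g l))
    (fun l => hf1 _) (fun l => hf2 _) ?_
  · intro h hh F
    have h1 := hC' h hh (F.map ⟨g, hg⟩)
    rwa [Finset.sum_map] at h1
  · intro l F hl
    have h1 : ENNReal.ofReal (∑ i ∈ F, |f (g l) (z (g i))|) ≤ ENNReal.ofReal (a / 2) := by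
      refine le_trans ?_ (hg2 l)
      rw [ENNReal.ofReal_sum_of_nonneg fun _ _ => abs_nonneg _]
      refine le_trans (le_of_eq ?_) (ENNReal.sum_le_tsum F)
      refine Finset.sum_congr rfl fun i hi => ?_
      rw [if_neg (fun h : i = l => hl (h ▸ hi))]
    exact (ENNReal.ofReal_le_ofReal_iff (by positivity)).1 h1

end Pool.Agent.Helper34.TG
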