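import Pool.Agent.Helper34.TG.Result

/-!
MP_b4da01_an, full answer (proof of helper6, see team-store MP_b4da01_full.md): definitions.
-/

set_option autoImplicit false

open Filter Topology

namespace Pool.Agent.Helper34.TG

universe u

/-- `X` contains a copy of `c₀`: some closed subspace of `X` is linearly isomorphic to `c₀`. -/
def ContainsC0 (X : Type u) [NormedAddCommGroup X] [NormedSpace ℝ X] : Prop :=
  ∃ E : Submodule ℝ X, IsClosed (E : Set X) ∧ Nonempty (ZeroAtInftyContinuousMap ℕ ℝ ≃L[ℝ] E)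

variable {X : Type u} [NormedAddCommGroup X] [NormedSpace ℝ X]

/-- the signed sums of a finite list of vectors -/
def SW : List X → Set X
  | [] => {0}
  | z :: l => {w | ∃ w' ∈ SW l, w = w' + z ∨ w = w' - z}

/-- `y` is `K`-gained -/
def Gained (φ : Seminorm ℝ X) (K : ℝ) (y : X) : Prop := ∃ d, K * ‖d‖ ^ 2 < sd φ y d

/-- `y` is in the weak neighbourhood of `x` given by `Ψ` and `ε` -/
def Nb (Ψ : Finset (X →L[ℝ] ℝ)) (ε : ℝ) (x y : X) : Prop := ∀ ψ ∈ Ψ, |ψ (y - x)| ≤ ε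

/-- no gained points in some weak neighbourhood of `x` at distance at most `R` -/
def Base (φ : Seminorm ℝ X) (x : X) (R : ℝ) : Prop :=
  ∃ (K : ℝ) (Ψ : Finset (X →L[ℝ] ℝ)) (ε : ℝ), 0 < ε ∧
    ∀ y, ‖y - x‖ ≤ R → Nb Ψ ε x y → ¬ Gained φ K y

/-- tame points, with an ordinal rank -/
inductive Tame (φ : Seminorm ℝ X) : Ordinal.{u} → ℕ → X → ℝ → Prop
  | base {α : Ordinal.{u}} {k : ℕ} {x : X} {R : ℝ} (h : Base φ x R) : Tame φ α k x R
  | step {α : Ordinal.{u}} {k : ℕ} {x : X} {R : ℝ} (Ψ : Finset (X →L[ℝ] ℝ)) (ε η s : ℝ)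
      (hε : 0 < ε) (hη : 0 < η) (hs : 0 < s) (b : X → Ordinal.{u})
      (hb : ∀ y, ‖y - x‖ ≤ R → Nb Ψ ε x y → φ y ≤ φ x + η → Gained φ k y → b y < α)
      (h : ∀ y, ‖y - x‖ ≤ R → Nb Ψ ε x y → φ y ≤ φ x + η → Gained φ k y →
        Tame φ (b y) (k + 1) y s) : Tame φ α k x R

/-- the points of `S` can be moved by a common vector of norm between `R / 32` and `R` and its
negative, after small individual shifts -/
def Movable (φ : Seminorm ℝ X) (S : Set X) (R : ℝ) : Prop :=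
  ∀ (Ψ : Finset (X →L[ℝ] ℝ)) (ε g κ : ℝ), 0 < ε → 0 < g → 0 < κ →
    ∃ z : X, R / 32 ≤ ‖z‖ ∧ ‖z‖ ≤ R ∧ (∀ ψ ∈ Ψ, |ψ z| ≤ ε) ∧
      ∀ x ∈ S, ∀ σ : ℝ, (σ = 1 ∨ σ = -1) → ∃ x' : X, ‖x' - (x + σ • z)‖ ≤ κ ∧ Nb Ψ ε x x' ∧
        φ x' ≤ φ x + g

end Pool.Agent.Helper34.TG
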