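import Pool.Agent.Helper40.TGF.Defs

/-!
Module End (owner: helper79).  A point which is not tame gives a nonzero point without a quadratic
bound for the second differences.
Proof: `exists_of_not_tame`: if `∀ α, ¬ Tame φ α k x R` then for all `Ψ ε s > 0` there is `y` with
`‖y - x‖ ≤ R`, `Nb Ψ ε x y`, `φ y ≤ φ x + ε`, `Gained φ k y`, `∀ α, ¬ Tame φ α (k + 1) y s` (sup of the ranks,
`Ordinal.{u}` is enough for `X : Type u`).  Chain with `R_k = R / 2 ^ k`.
-/

set_option autoImplicit false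

open Filter Topology

namespace Pool.Agent.Helper34.TG

universe u

variable {X : Type u} [NormedAddCommGroup X] [NormedSpace ℝ X]

/-- Otherwise choose ordinals `β y` for the gained neighbours; `α = Order.succ (⨆ y, β y)`. -/
theorem exists_of_not_tame (φ : Seminorm ℝ X) (k : ℕ) (x : X) (R : ℝ)
    (h : ¬ ∃ α : Ordinal.{u}, Tame φ α k x R)
    (Ψ : Finset (X →L[ℝ] ℝ)) (ε s : ℝ) (hε : 0 < ε) (hs : 0 < s) :
    ∃ y, ‖y - x‖ ≤ R ∧ Nb Ψ ε x y ∧ φ y ≤ φ x + ε ∧ Gained φ k y ∧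
      ¬ ∃ α : Ordinal.{u}, Tame φ α (k + 1) y s := by
  classical
  by_contra hcon
  push Not at hcon
  apply h
  refine ⟨Order.succ (⨆ y : X,
      (if hy : ∃ α : Ordinal.{u}, Tame φ α (k + 1) y s then hy.choose else 0)),
    Tame.step Ψ ε ε s hε hε hs
      (fun y => if hy : ∃ α : Ordinal.{u}, Tame φ α (k + 1) y s then hy.choose else 0)
      (fun y _ _ _ _ => ?_) ?_⟩
  · exact Order.lt_succ_of_le (le_ciSup (f := fun y : X =>
      (if hy : ∃ α : Ordinal.{u}, Tame φ α (k + 1) y s then hy.choose else 0 : Ordinal.{u}))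
      (Ordinal.bddAbove_range _) y)
  · intro y h1 h2 h3 h4
    have hy := hcon y h1 h2 h3 h4
    simp only [dif_pos hy]
    exact hy.choose_spec

/-- a small `ε` for a finite set of strict inequalities -/
lemma exists_small (φ : Seminorm ℝ X) (x : X) (L : Finset (ℝ × X))
    (h : ∀ p ∈ L, p.1 < sd φ x p.2) : ∃ ε : ℝ, 0 < ε ∧ ∀ p ∈ L, p.1 + 4 * ε < sd φ x p.2 := by
  classical
  induction L using Finset.induction_on with
  | empty => exact ⟨1, one_pos, fun p hp => absurd hp (Finset.notMem_empty p)⟩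
  | insert q L hq ih =>
    obtain ⟨ε, hε, hεL⟩ := ih fun p hp => h p (Finset.mem_insert_of_mem hp)
    have h1 := h q (Finset.mem_insert_self q L)
    have h2 : 0 < min ε ((sd φ x q.2 - q.1) / 8) := lt_min hε (by linarith)
    refine ⟨min ε ((sd φ x q.2 - q.1) / 8), h2, ?_⟩
    intro p hp
    have h3 := min_le_left ε ((sd φ x q.2 - q.1) / 8)
    have h4 := min_le_right ε ((sd φ x q.2 - q.1) / 8)
    rcases Finset.mem_insert.1 hp with rfl | hp
    · linarith
    · linarith [hεL p hp]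

/-- Chain `x 0 = x`, `x (n + 1)` near `x n` (distance at most `R / 2 ^ n`), `n`-gained, not tame of
level `n + 1` at scale `R / 2 ^ (n + 1)`.  State: the point `x` and a finite set `L` of pairs
`(t, d)` with `t < sd φ x d`; in step `n` a pair with `n ‖d‖² < t` is added; the functionals are the
subgradients at `x ± d`, `(t, d) ∈ L`, and `ε` is so small that `sd φ x d - 4 ε > t` for
`(t, d) ∈ L`: then `sd φ x' d ≥ sd φ x d - 4 ε`.  The limit has all the second differences `≥ t`. -/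
theorem exists_bad_of_not_tame {X : Type u} [NormedAddCommGroup X] [NormedSpace ℝ X]
    [CompleteSpace X] (φ : Seminorm ℝ X) (hφ : ∀ x, φ x ≤ ‖x‖) (x : X) (R : ℝ) (hR : 0 < R)
    (hx : 2 * R < φ x) (h : ∀ α : Ordinal.{u}, ¬ Tame φ α 0 x R) :
    ∃ y : X, y ≠ 0 ∧ ∀ K : ℝ, ∃ d : X, K * ‖d‖ ^ 2 < sd φ y d := by
  classical
  choose sub hsub1 hsub2 using exists_subgradient φ hφ
  -- one step
  have step : ∀ (n : ℕ) (s : X × Finset (ℝ × X)),
      (¬ (∃ α : Ordinal.{u}, Tame φ α n s.1 (R / 2 ^ n)) ∧ ∀ p ∈ s.2, p.1 < sd φ s.1 p.2) →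
      ∃ s' : X × Finset (ℝ × X),
        (¬ (∃ α : Ordinal.{u}, Tame φ α (n + 1) s'.1 (R / 2 ^ (n + 1))) ∧ ∀ p ∈ s'.2, p.1 < sd φ s'.1 p.2) ∧
        (‖s'.1 - s.1‖ ≤ R / 2 ^ n ∧ s.2 ⊆ s'.2 ∧ ∃ p ∈ s'.2, (n : ℝ) * ‖p.2‖ ^ 2 < p.1) := by
    rintro n ⟨y, L⟩ ⟨hnt, hL⟩
    dsimp only at hnt hL ⊢
    obtain ⟨ε, hε, hεL⟩ := exists_small φ y L hL
    obtain ⟨y', hy1, hy2, hy3, ⟨d, hd⟩, hy5⟩ := exists_of_not_tame φ n y (R / 2 ^ n) hnt
      (L.image (fun p => sub (y + p.2)) ∪ L.image (fun p => sub (y - p.2))) ε (R / 2 ^ (n + 1))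
      hε (by positivity)
    have hkeep : ∀ p ∈ L, p.1 < sd φ y' p.2 := by
      intro p hp
      have h1 := hy2 (sub (y + p.2)) (Finset.mem_union_left _ (Finset.mem_image_of_mem _ hp))
      have h2 := hy2 (sub (y - p.2)) (Finset.mem_union_right _
        (Finset.mem_image_of_mem (fun p : ℝ × X => sub (y - p.2)) hp))
      have h3 := hsub2 (y + p.2) (y' + p.2)
      have h4 := hsub2 (y - p.2) (y' - p.2)
      have h5 : sub (y + p.2) (y' + p.2) = φ (y + p.2) + sub (y + p.2) (y' - y) := by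
        rw [← hsub1 (y + p.2), ← map_add]
        congr 1
        abel
      have h6 : sub (y - p.2) (y' - p.2) = φ (y - p.2) + sub (y - p.2) (y' - y) := by
        rw [← hsub1 (y - p.2), ← map_add]
        congr 1
        abel
      have h7 := (abs_le.1 h1).1
      have h8 := (abs_le.1 h2).1
      have h9 := hεL p hp
      unfold sd at h9 ⊢
      linarith
    refine ⟨(y', insert (((n : ℝ) * ‖d‖ ^ 2 + sd φ y' d) / 2, d) L), ⟨hy5, ?_⟩, hy1,
      Finset.subset_insert _ _, ⟨(((n : ℝ) * ‖d‖ ^ 2 + sd φ y' d) / 2, d),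
        Finset.mem_insert_self _ _, ?_⟩⟩
    · intro p hp
      rcases Finset.mem_insert.1 hp with rfl | hp
      · dsimp only
        linarith
      · exact hkeep p hp
    · dsimp only
      linarith
  -- the chain
  choose! g hg using step
  let f : ℕ → X × Finset (ℝ × X) := fun n => Nat.rec (x, ∅) (fun n a => g n a) n
  have hf0 : f 0 = (x, ∅) := rfl
  have hfs : ∀ n, f (n + 1) = g n (f n) := fun n => rfl
  have hP : ∀ n, ¬ (∃ α : Ordinal.{u}, Tame φ α n (f n).1 (R / 2 ^ n)) ∧ ∀ p ∈ (f n).2, p.1 < sd φ (f n).1 p.2 := by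
    intro n
    induction n with
    | zero =>
      rw [hf0]
      refine ⟨by simpa using h, fun p hp => absurd hp (Finset.notMem_empty p)⟩
    | succ n ih =>
      rw [hfs]
      exact (hg n (f n) ih).1
  have hR' : ∀ n, ‖(f (n + 1)).1 - (f n).1‖ ≤ R / 2 ^ n ∧ (f n).2 ⊆ (f (n + 1)).2 ∧
      ∃ p ∈ (f (n + 1)).2, (n : ℝ) * ‖p.2‖ ^ 2 < p.1 := by
    intro n
    rw [hfs]
    exact (hg n (f n) (hP n)).2
  have hdist : ∀ n, dist (f n).1 (f (n + 1)).1 ≤ R * (1 / 2) ^ n := by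
    intro n
    rw [dist_comm, dist_eq_norm]
    refine (hR' n).1.trans (le_of_eq ?_)
    rw [one_div, inv_pow, div_eq_mul_inv]
  obtain ⟨x', hx'⟩ := cauchySeq_tendsto_of_complete
    (cauchySeq_of_le_geometric (1 / 2) R (by norm_num) hdist)
  have hd0 : dist x x' ≤ R / (1 - 1 / 2) := by
    have := dist_le_of_le_geometric_of_tendsto₀ (1 / 2) R (by norm_num) hdist hx'
    rwa [hf0] at this
  have hcont : Continuous φ := by
    refine (LipschitzWith.of_dist_le_mul (K := 1) fun a b => ?_).continuous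
    rw [Real.dist_eq, NNReal.coe_one, one_mul, dist_eq_norm]
    exact (abs_sub_map_le_sub φ a b).trans (hφ _)
  have hsd : ∀ d, Continuous fun y => sd φ y d := by
    intro d
    unfold sd
    fun_prop
  have hmono : Monotone fun n => (f n).2 := monotone_nat_of_le_succ fun n => (hR' n).2.1
  refine ⟨x', ?_, fun K => ?_⟩
  · rintro rfl
    have h1 : φ x ≤ dist x 0 := by
      rw [dist_zero_right]
      exact hφ x
    have h2 : R / (1 - 1 / 2) = 2 * R := by norm_num; ring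
    linarith
  · obtain ⟨n, hn⟩ := exists_nat_ge K
    obtain ⟨p, hp, hpn⟩ := (hR' n).2.2
    refine ⟨p.2, ?_⟩
    have h1 : p.1 ≤ sd φ x' p.2 := by
      refine ge_of_tendsto (((hsd p.2).tendsto x').comp hx') ?_
      filter_upwards [eventually_ge_atTop (n + 1)] with m hm
      exact ((hP m).2 p (hmono hm hp)).le
    have h2 : K * ‖p.2‖ ^ 2 ≤ (n : ℝ) * ‖p.2‖ ^ 2 :=
      mul_le_mul_of_nonneg_right hn (by positivity)
    linarith

end Pool.Agent.Helper34.TG
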