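import Pool.Agent.Helper40.TGF.LemD
import Pool.Agent.Helper40.TGF.End

/-!
Assembly of the full answer.
-/

set_option autoImplicit false

open Filter Topology

namespace Pool.Agent.Helper34.TG

universe u v

/-- **Theorem.** Let `X` be a real Banach space which admits a twice Gateaux differentiable norm and
which contains no copy of `c₀`. Then `X` is superreflexive. -/
theorem isSuperreflexive_of_not_c0 {X : Type u} [NormedAddCommGroup X] [NormedSpace ℝ X]
    [CompleteSpace X] (h : AdmitsTwiceGateauxNorm X) (h2 : ¬ ContainsC0 X) :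
    IsSuperreflexive.{u, v} X := by
  intro Y _ _ _ hfr
  by_contra hY
  have htree : HasTrees X := hasTrees_of_not_reflexive hfr hY
  obtain ⟨x₀, hx₀⟩ := htree.exists_ne_zero
  obtain ⟨N, hN, hTG⟩ := h
  obtain ⟨C, hC, hCN⟩ := hN.upper
  obtain ⟨c, hc, hcN⟩ := hN.lower
  have happly : ∀ x, scaledNorm hN C hC x = N x / C := fun _ => rfl
  have hφ : ∀ x, scaledNorm hN C hC x ≤ ‖x‖ := fun x => by
    rw [happly, div_le_iff₀ hC, mul_comm]
    exact hCN x
  have hcφ : ∀ x, c / C * ‖x‖ ≤ scaledNorm hN C hC x := fun x => by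
    rw [happly, div_mul_eq_mul_div]
    exact div_le_div_of_nonneg_right (hcN x) hC.le
  have hpos : 0 < scaledNorm hN C hC x₀ :=
    (mul_pos (div_pos hc hC) (norm_pos_iff.2 hx₀)).trans_le (hcφ x₀)
  obtain ⟨x₁, hx₁, hnt⟩ := exists_not_tame h2 htree (scaledNorm hN C hC) hφ (c / C)
    (div_pos hc hC) hcφ x₀ hx₀ (scaledNorm hN C hC x₀ / 8) (by positivity)
  obtain ⟨x, hx, hbad⟩ := exists_bad_of_not_tame (scaledNorm hN C hC) hφ x₁
    (scaledNorm hN C hC x₀ / 8) (by positivity) (by linarith) hnt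
  obtain ⟨D, hD⟩ := smooth_bound hN (hTG x hx)
  obtain ⟨d, hd⟩ := hbad (D / C)
  have h3 := hD d
  have h4 : sd (scaledNorm hN C hC) x d = (N (x + d) + N (x - d) - 2 * N x) / C := by
    unfold sd
    rw [happly, happly, happly]
    ring
  rw [h4, div_mul_eq_mul_div] at hd
  have h5 := div_le_div_of_nonneg_right h3 hC.le
  linarith

end Pool.Agent.Helper34.TG
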