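import Pool.Agent.Helper40.TGF.Basic

/-!
Module LemB (owner: helper40).  Finitely many base points are movable.
Proof without probability: take the tree `d` of `HasTrees` with `N` large, `M_l(s) = R • ∑_{i<l} sgn (s (i+1)) • d i s`.
Choose the coins greedily such that
`R * c * ∑_{j<l} sgn (s (j+1)) - (R / g') * ∑_x sd φ x (M_l)` loses at most
`(R / g') * card * K * R^2 / N^2` per step (average over the next sign, second differences are at most
`K R² / N²` as the points `x ± M_l` are not `K`-gained).  At the end `R ≥ ‖M_N‖ ≥ R/16 + R c ∑ sgn` gives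
both `sd φ x (M_N) ≤ g'` for all `x` and `‖M_N‖ ≥ R / 32`.
-/

set_option autoImplicit false

open Filter Topology

namespace Pool.Agent.Helper34.TG

universe u

variable {X : Type u} [NormedAddCommGroup X] [NormedSpace ℝ X]

lemma LB.sd_add (φ : Seminorm ℝ X) (x M D : X) :
    sd φ x (M + D) + sd φ x (M - D) = 2 * sd φ x M + (sd φ (x + M) D + sd φ (x - M) D) := by
  unfold sd
  have h1 : x + (M + D) = x + M + D := by abel
  have h2 : x - (M + D) = x - M - D := by abel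
  have h3 : x + (M - D) = x + M - D := by abel
  have h4 : x - (M - D) = x - M + D := by abel
  rw [h1, h2, h3, h4]
  ring

lemma LB.norm_tree_le {R : ℝ} (hR : 0 < R) {N : ℕ} (hN : 0 < N) {d : ℕ → (ℕ → ZMod 2) → X}
    (hd : ∀ l s, ‖d l s‖ ≤ 1 / N) {i : ℕ} (hi : i ≤ N) (s : ℕ → ZMod 2) :
    ‖treeM R d i s‖ ≤ R := by
  unfold treeM
  rw [norm_smul, Real.norm_eq_abs, abs_of_pos hR]
  have h1 : ‖∑ l ∈ Finset.range i, sgn (s (l + 1)) • d l s‖ ≤ ∑ l ∈ Finset.range i, 1 / (N : ℝ) := by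
    refine norm_sum_le_of_le _ fun l _ => ?_
    rw [norm_smul, Real.norm_eq_abs, abs_sgn, one_mul]
    exact hd l s
  have h2 : ∑ l ∈ Finset.range i, 1 / (N : ℝ) ≤ 1 := by
    rw [Finset.sum_const, Finset.card_range, nsmul_eq_mul, mul_one_div]
    have hN' : (0 : ℝ) < N := by exact_mod_cast hN
    rw [div_le_one hN']
    exact_mod_cast hi
  calc R * ‖∑ l ∈ Finset.range i, sgn (s (l + 1)) • d l s‖ ≤ R * 1 :=
        mul_le_mul_of_nonneg_left (h1.trans h2) hR.le
    _ = R := mul_one R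

/-- the greedy choice of the coins -/
lemma LB.greedy (φ : Seminorm ℝ X) (T : Finset X) {R A β c : ℝ} (hA : 0 ≤ A) {N : ℕ}
    {d : ℕ → (ℕ → ZMod 2) → X}
    (hd1 : ∀ l, ∀ s s' : ℕ → ZMod 2, (∀ i ≤ l, s i = s' i) → d l s = d l s')
    (hsd : ∀ i < N, ∀ s, ∑ x ∈ T, (sd φ (x + treeM R d i s) (R • d i s) +
      sd φ (x - treeM R d i s) (R • d i s)) ≤ 2 * β) (i : ℕ) (hi : i ≤ N) :
    ∃ s : ℕ → ZMod 2, -(i * (A * β)) ≤
      c * ∑ l ∈ Finset.range i, sgn (s (l + 1)) - A * ∑ x ∈ T, sd φ x (treeM R d i s) := by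
  induction i with
  | zero =>
    refine ⟨fun _ => 0, ?_⟩
    have h0 : ∀ x, sd φ x (treeM R d 0 fun _ => 0) = 0 := by
      intro x
      simp [sd, treeM]
      ring
    simp [h0]
  | succ i ih =>
    obtain ⟨s, hs⟩ := ih (Nat.le_of_succ_le hi)
    have hfam : ∀ b : ZMod 2, ∃ s' : ℕ → ZMod 2, (∀ j ≤ i, s' j = s j) ∧ s' (i + 1) = b := by
      intro b
      exact ⟨fun j => if j = i + 1 then b else s j, fun j hj => if_neg (by omega), by simp⟩
    obtain ⟨s₀, h01, h02⟩ := hfam 0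
    obtain ⟨s₁, h11, h12⟩ := hfam 1
    have hval : ∀ s' : ℕ → ZMod 2, (∀ j ≤ i, s' j = s j) →
        treeM R d (i + 1) s' = treeM R d i s + sgn (s' (i + 1)) • (R • d i s) ∧
        ∑ l ∈ Finset.range (i + 1), sgn (s' (l + 1)) =
          ∑ l ∈ Finset.range i, sgn (s (l + 1)) + sgn (s' (i + 1)) := by
      intro s' hs'
      constructor
      · rw [treeM_succ, treeM_congr hd1 i (s := s') (s' := s) (fun j hj => hs' j (by omega)),
          hd1 i s' s hs']
      · rw [Finset.sum_range_succ]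
        congr 1
        refine Finset.sum_congr rfl fun l hl => ?_
        rw [Finset.mem_range] at hl
        rw [hs' (l + 1) (by omega)]
    obtain ⟨e01, e02⟩ := hval s₀ h01
    obtain ⟨e11, e12⟩ := hval s₁ h11
    have hs0 : sgn (s₀ (i + 1)) = 1 := by rw [h02]; simp [sgn]
    have hs1 : sgn (s₁ (i + 1)) = -1 := by rw [h12]; simp [sgn]
    rw [hs0] at e01 e02
    rw [hs1] at e11 e12
    rw [one_smul] at e01
    rw [neg_one_smul, ← sub_eq_add_neg] at e11
    have hsum : ∑ x ∈ T, sd φ x (treeM R d (i + 1) s₀) + ∑ x ∈ T, sd φ x (treeM R d (i + 1) s₁) ≤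
        2 * ∑ x ∈ T, sd φ x (treeM R d i s) + 2 * β := by
      rw [← Finset.sum_add_distrib, Finset.mul_sum]
      have h1 : ∀ x ∈ T, sd φ x (treeM R d (i + 1) s₀) + sd φ x (treeM R d (i + 1) s₁) =
          2 * sd φ x (treeM R d i s) + (sd φ (x + treeM R d i s) (R • d i s) +
            sd φ (x - treeM R d i s) (R • d i s)) := by
        intro x _
        rw [e01, e11]
        exact LB.sd_add φ x _ _
      rw [Finset.sum_congr rfl h1, Finset.sum_add_distrib]
      have := hsd i (by omega) s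
      linarith
    by_contra hcon
    push Not at hcon
    have h0 := hcon s₀
    have h1 := hcon s₁
    rw [e02] at h0
    rw [e12] at h1
    have h2 := mul_le_mul_of_nonneg_left hsum hA
    push_cast at h0 h1
    nlinarith [h0, h1, h2, hs]

theorem movable_of_base
    (htree : HasTrees X) (φ : Seminorm ℝ X) (hφ : ∀ x, φ x ≤ ‖x‖) (S : Set X) (hS : S.Finite)
    (R : ℝ) (hR : 0 < R) (h : ∀ x ∈ S, Base φ x R) : Movable φ S R := by
  classical
  intro Ψ₁ ε₁ g₁ κ₁ hε₁ hg₁ hκ₁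
  obtain ⟨Ψ₀, μ₀, hμ₀, hbase⟩ := unif (S := S)
    (fun x Ψ μ => ∀ y, ‖y - x‖ ≤ R → Nb Ψ μ x y → ¬ Gained φ (1 / μ) y)
    (fun x Ψ Ψ' μ μ' h hΨ hμ' hμ y h1 h2 h3 => h y h1 (h2.mono hΨ hμ)
      (h3.mono (one_div_le_one_div_of_le hμ' hμ))) hS
    (fun x hx => by
      obtain ⟨K, Ψ, ε, hε, h⟩ := h x hx
      have hK : 0 < |K| + 1 := by positivity
      refine ⟨Ψ, min ε (1 / (|K| + 1)), lt_min hε (by positivity), fun y h1 h2 h3 => ?_⟩
      refine h y h1 (h2.mono (Finset.Subset.refl _) (min_le_left _ _)) (h3.mono ?_)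
      have h4 : min ε (1 / (|K| + 1)) ≤ 1 / (|K| + 1) := min_le_right _ _
      have h5 : 1 / (1 / (|K| + 1)) ≤ 1 / min ε (1 / (|K| + 1)) :=
        one_div_le_one_div_of_le (lt_min hε (by positivity)) h4
      rw [one_div_one_div] at h5
      linarith [le_abs_self K])
  choose f hf1 hf2 using fun x => exists_subgradient φ hφ x
  obtain ⟨T, hT⟩ : ∃ T : Finset X, ∀ x, x ∈ T ↔ x ∈ S := ⟨hS.toFinset, by simp⟩
  obtain ⟨A, hA, hAg⟩ : ∃ A : ℝ, 0 < A ∧ A * (g₁ / 2) = R :=
    ⟨R / (g₁ / 2), by positivity, by field_simp⟩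
  obtain ⟨N, hN⟩ := exists_nat_gt (max 0 (A * (T.card * (1 / μ₀) * R ^ 2) / (R / 32)))
  have hN0 : (0 : ℝ) < N := (le_max_left _ _).trans_lt hN
  have hNpos : 0 < N := by exact_mod_cast hN0
  have hN1 : A * (T.card * (1 / μ₀) * R ^ 2) < N * (R / 32) := by
    have := (le_max_right _ _).trans_lt hN
    rwa [div_lt_iff₀ (by positivity)] at this
  obtain ⟨d, hd1, hd2, -, hd4, c, hd5⟩ := htree N hNpos (min μ₀ (min ε₁ (g₁ / 2)) / R)
    (by positivity) (Ψ₀ ∪ Ψ₁ ∪ T.image f)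
  have hfar : ∀ i ≤ N, ∀ s, ∀ ψ ∈ Ψ₀ ∪ Ψ₁ ∪ T.image f,
      |ψ (treeM R d i s)| ≤ min μ₀ (min ε₁ (g₁ / 2)) := by
    intro i hi s ψ hψ
    have h1 := hd4 i hi s ψ hψ
    rw [le_div_iff₀ hR] at h1
    unfold treeM
    rw [map_smul, smul_eq_mul, abs_mul, abs_of_pos hR, mul_comm]
    exact h1
  have hnode : ∀ i ≤ N, ∀ s, ∀ x ∈ S, ∀ σ : ℝ, (σ = 1 ∨ σ = -1) → ∀ v : X,
      sd φ (x + σ • treeM R d i s) v ≤ 1 / μ₀ * ‖v‖ ^ 2 := by
    intro i hi s x hx σ hσ v
    have hσ' : |σ| = 1 := by rcases hσ with rfl | rfl <;> simp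
    by_contra hcon
    push Not at hcon
    refine hbase x hx (x + σ • treeM R d i s) ?_ ?_ ⟨v, hcon⟩
    · rw [add_sub_cancel_left, norm_smul, Real.norm_eq_abs, hσ', one_mul]
      exact LB.norm_tree_le hR hNpos hd2 hi s
    · intro ψ hψ
      rw [add_sub_cancel_left, map_smul, smul_eq_mul, abs_mul, hσ', one_mul]
      exact (hfar i hi s ψ (by simp [hψ])).trans (min_le_left _ _)
  obtain ⟨s, hs⟩ := LB.greedy φ T (R := R) (A := A) (β := T.card * (1 / μ₀) * R ^ 2 / N ^ 2)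
    (c := R * c) (N := N) hA.le hd1 (by
      intro i hi s
      have h1 : ∀ x ∈ T, sd φ (x + treeM R d i s) (R • d i s) +
          sd φ (x - treeM R d i s) (R • d i s) ≤ 2 * (1 / μ₀ * (R / N) ^ 2) := by
        intro x hx
        have h2 := hnode i hi.le s x ((hT x).1 hx) 1 (Or.inl rfl) (R • d i s)
        have h3 := hnode i hi.le s x ((hT x).1 hx) (-1) (Or.inr rfl) (R • d i s)
        rw [one_smul] at h2
        rw [neg_one_smul, ← sub_eq_add_neg] at h3
        have h4 : ‖R • d i s‖ ≤ R / N := by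
          rw [norm_smul, Real.norm_eq_abs, abs_of_pos hR]
          calc R * ‖d i s‖ ≤ R * (1 / N) := mul_le_mul_of_nonneg_left (hd2 i s) hR.le
            _ = R / N := by ring
        have h5 : ‖R • d i s‖ ^ 2 ≤ (R / N) ^ 2 := pow_le_pow_left₀ (norm_nonneg _) h4 2
        have h6 : 1 / μ₀ * ‖R • d i s‖ ^ 2 ≤ 1 / μ₀ * (R / N) ^ 2 :=
          mul_le_mul_of_nonneg_left h5 (by positivity)
        linarith
      refine (Finset.sum_le_sum h1).trans (le_of_eq ?_)
      rw [Finset.sum_const, nsmul_eq_mul]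
      field_simp) N le_rfl
  have h1 := hd5 s
  have h2 : R / 16 + R * c * ∑ l ∈ Finset.range N, sgn (s (l + 1)) ≤ ‖treeM R d N s‖ := by
    unfold treeM
    rw [norm_smul, Real.norm_eq_abs, abs_of_pos hR]
    have := mul_le_mul_of_nonneg_left h1 hR.le
    linarith
  have h3 : (N : ℝ) * (A * (T.card * (1 / μ₀) * R ^ 2 / N ^ 2)) < R / 32 := by
    have h4 : (N : ℝ) * (A * (T.card * (1 / μ₀) * R ^ 2 / N ^ 2)) =
        A * (T.card * (1 / μ₀) * R ^ 2) / N := by
      field_simp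
    rw [h4, div_lt_iff₀ hN0]
    linarith
  have h4 : ‖treeM R d N s‖ ≤ R := LB.norm_tree_le hR hNpos hd2 le_rfl s
  have hV0 : ∀ x ∈ T, 0 ≤ sd φ x (treeM R d N s) := fun x _ => sd_nonneg φ x _
  have hVs : 0 ≤ ∑ x ∈ T, sd φ x (treeM R d N s) := Finset.sum_nonneg hV0
  have h5 : 0 ≤ A * ∑ x ∈ T, sd φ x (treeM R d N s) := mul_nonneg hA.le hVs
  have h6 : ∑ x ∈ T, sd φ x (treeM R d N s) ≤ g₁ / 2 := by
    by_contra hcon
    push Not at hcon
    have := mul_lt_mul_of_pos_left hcon hA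
    rw [hAg] at this
    linarith
  refine ⟨treeM R d N s, by linarith, h4, ?_, ?_⟩
  · intro ψ hψ
    exact (hfar N le_rfl s ψ (by simp [hψ])).trans ((min_le_right _ _).trans (min_le_left _ _))
  · intro x hx σ hσ
    have hσ' : |σ| = 1 := by rcases hσ with rfl | rfl <;> simp
    refine ⟨x + σ • treeM R d N s, by simpa using hκ₁.le, ?_, ?_⟩
    · intro ψ hψ
      rw [add_sub_cancel_left, map_smul, smul_eq_mul, abs_mul, hσ', one_mul]
      exact (hfar N le_rfl s ψ (by simp [hψ])).trans ((min_le_right _ _).trans (min_le_left _ _))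
    · have h7 : sd φ x (treeM R d N s) ≤ g₁ / 2 :=
        (Finset.single_le_sum hV0 ((hT x).2 hx)).trans h6
      have h8 := (hfar N le_rfl s (f x) (by
        simp only [Finset.mem_union, Finset.mem_image]
        exact Or.inr ⟨x, (hT x).2 hx, rfl⟩)).trans ((min_le_right _ _).trans (min_le_right _ _))
      have h9 := hf2 x (x + treeM R d N s)
      have h10 := hf2 x (x - treeM R d N s)
      rw [map_add, hf1] at h9
      rw [map_sub, hf1] at h10
      have h11 := abs_le.1 h8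
      unfold sd at h7
      rcases hσ with rfl | rfl
      · rw [one_smul]
        linarith
      · rw [neg_one_smul, ← sub_eq_add_neg]
        linarith

end Pool.Agent.Helper34.TG
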