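import Pool.Agent.Helper40.TGF.LemB
import Pool.Agent.Helper40.TGF.C0

/-!
Module LemC (owner: helper40).  Finitely many tame points are movable.
-/

set_option autoImplicit false

open Filter Topology

namespace Pool.Agent.Helper34.TG

universe u

section SW

variable {X : Type u} [NormedAddCommGroup X] [NormedSpace ℝ X]

omit [NormedSpace ℝ X] in
lemma SW_cons (z : X) (l : List X) :
    SW (z :: l) = (fun w => w + z) '' SW l ∪ (fun w => w - z) '' SW l := by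
  ext w
  simp only [SW, Set.mem_ofPred_eq, Set.mem_union, Set.mem_image]
  constructor
  · rintro ⟨w', hw', h | h⟩
    · exact Or.inl ⟨w', hw', h.symm⟩
    · exact Or.inr ⟨w', hw', h.symm⟩
  · rintro (⟨w', hw', h⟩ | ⟨w', hw', h⟩)
    · exact ⟨w', hw', Or.inl h.symm⟩
    · exact ⟨w', hw', Or.inr h.symm⟩

omit [NormedSpace ℝ X] in
lemma SW_finite (l : List X) : (SW l).Finite := by
  induction l with
  | nil => exact Set.finite_singleton 0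
  | cons z l ih => rw [SW_cons]; exact (ih.image _).union (ih.image _)

omit [NormedSpace ℝ X] in
lemma SW_neg (l : List X) : ∀ w ∈ SW l, -w ∈ SW l := by
  induction l with
  | nil => intro w hw; simpa [SW] using hw
  | cons z l ih =>
    rintro w ⟨w', hw', h | h⟩
    · exact ⟨-w', ih w' hw', Or.inr (by rw [h]; abel)⟩
    · exact ⟨-w', ih w' hw', Or.inl (by rw [h]; abel)⟩

lemma SW_sgn (l : List X) {w : X} (hw : w ∈ SW l) {σ : ℝ} (hσ : σ = 1 ∨ σ = -1) :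
    σ • w ∈ SW l := by
  rcases hσ with rfl | rfl
  · rwa [one_smul]
  · rw [neg_one_smul]; exact SW_neg l w hw

lemma mem_SW_cons {z : X} {l : List X} {w' : X} (h : w' ∈ SW (z :: l)) :
    ∃ w ∈ SW l, ∃ σ : ℝ, (σ = 1 ∨ σ = -1) ∧ w' = w + σ • z := by
  obtain ⟨w, hw, h | h⟩ := h
  · exact ⟨w, hw, 1, Or.inl rfl, by rw [h, one_smul]⟩
  · exact ⟨w, hw, -1, Or.inr rfl, by rw [h, neg_one_smul]; abel⟩

end SW

/-- list version of `containsC0_of_signs` -/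
theorem containsC0_of_lists {X : Type u} [NormedAddCommGroup X] [NormedSpace ℝ X]
    [CompleteSpace X] (P : List X → Prop) (h0 : P []) (hs : ∀ l, P l → ∃ z, P (z :: l))
    (a C : ℝ) (ha : 0 < a) (hP : ∀ l, P l → (∀ z ∈ l, a ≤ ‖z‖) ∧ ∀ w ∈ SW l, ‖w‖ ≤ C) :
    ContainsC0 X := by
  classical
  choose nx hnx using hs
  let L : ℕ → {l : List X // P l} := fun n =>
    Nat.rec ⟨[], h0⟩ (fun _ l => ⟨nx l.1 l.2 :: l.1, hnx l.1 l.2⟩) n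
  let z : ℕ → X := fun n => nx (L n).1 (L n).2
  have hL : ∀ n, (L (n + 1)).1 = z n :: (L n).1 := fun n => rfl
  refine containsC0_of_signs z a C ha ?_ ?_
  · intro n
    refine (hP _ (L (n + 1)).2).1 (z n) ?_
    rw [hL]
    exact List.mem_cons_self
  · intro n θ hθ
    refine (hP _ (L n).2).2 _ ?_
    induction n with
    | zero => simp [L, SW]
    | succ n ih =>
      rw [Finset.sum_range_succ, hL]
      refine ⟨_, ih, ?_⟩
      rcases hθ n with h | h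
      · left; rw [h, one_smul]
      · right; rw [h, neg_one_smul, sub_eq_add_neg]

section main

variable {X : Type u} [NormedAddCommGroup X] [NormedSpace ℝ X]

/-- The data of one point of the family: it is a base point, or it is a step point. -/
def LC.Data (φ : Seminorm ℝ X) (α : Ordinal.{u}) (R : ℝ) (x : X) (Ψ : Finset (X →L[ℝ] ℝ))
    (μ : ℝ) : Prop :=
  (∃ K : ℝ, ∀ y, ‖y - x‖ ≤ R → Nb Ψ μ x y → ¬ Gained φ K y) ∨
  ∃ k : ℕ, ∀ y, ‖y - x‖ ≤ R → Nb Ψ μ x y → φ y ≤ φ x + μ → Gained φ k y →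
    ∃ β < α, Tame φ β (k + 1) y μ

lemma LC.Data.mono {φ : Seminorm ℝ X} {α : Ordinal.{u}} {R : ℝ} (x : X)
    (Ψ Ψ' : Finset (X →L[ℝ] ℝ)) (μ μ' : ℝ) (h : LC.Data φ α R x Ψ μ) (hΨ : Ψ ⊆ Ψ')
    (_ : 0 < μ') (hμ : μ' ≤ μ) : LC.Data φ α R x Ψ' μ' := by
  rcases h with ⟨K, h⟩ | ⟨k, h⟩
  · exact Or.inl ⟨K, fun y h1 h2 => h y h1 (h2.mono hΨ hμ)⟩
  · refine Or.inr ⟨k, fun y h1 h2 h3 h4 => ?_⟩
    obtain ⟨β, hβ, ht⟩ := h y h1 (h2.mono hΨ hμ) (h3.trans (by linarith)) h4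
    exact ⟨β, hβ, ht.mono le_rfl hμ⟩

lemma LC.data_of_tame {φ : Seminorm ℝ X} {α : Ordinal.{u}} {R : ℝ} {x : X} {k : ℕ}
    (h : Tame φ α k x R) : ∃ Ψ μ, 0 < μ ∧ LC.Data φ α R x Ψ μ := by
  cases h with
  | base h =>
    obtain ⟨K, Ψ, ε, hε, h⟩ := h
    exact ⟨Ψ, ε, hε, Or.inl ⟨K, h⟩⟩
  | step Ψ ε η s hε hη hs b hb h =>
    refine ⟨Ψ, min ε (min η s), lt_min hε (lt_min hη hs), Or.inr ⟨k, fun y h1 h2 h3 h4 => ?_⟩⟩
    have h5 : min ε (min η s) ≤ ε := min_le_left _ _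
    have h6 : min ε (min η s) ≤ η := (min_le_right _ _).trans (min_le_left _ _)
    have h7 : min ε (min η s) ≤ s := (min_le_right _ _).trans (min_le_right _ _)
    have h2' := h2.mono (Finset.Subset.refl _) h5
    have h3' : φ y ≤ φ x + η := h3.trans (by linarith)
    exact ⟨b y, hb y h1 h2' h3' h4, (h y h1 h2' h3' h4).mono le_rfl h7⟩

/-- the invariant for the position `p` of the point `x` displaced by `w`;
`G` is the predicate `k`-gained -/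
def LC.Inv (φ : Seminorm ℝ X) (Ψ : Finset (X →L[ℝ] ℝ)) (μ κ g δ : ℝ) (G : X → Prop) (x w p : X) :
    Prop :=
  (∀ ψ ∈ Ψ, |ψ (p - x)| < μ) ∧
  ((G p ∧ ‖p - (x + w)‖ < κ ∧ φ p < φ x + g) ∨ (‖p - (x + w)‖ < κ - δ ∧ φ p < φ x + g - δ))

lemma LC.Inv.weak {φ : Seminorm ℝ X} {Ψ : Finset (X →L[ℝ] ℝ)} {μ κ g δ : ℝ} {G : X → Prop}
    {x w p : X} (hδ : 0 < δ) (h : LC.Inv φ Ψ μ κ g δ G x w p) :
    (∀ ψ ∈ Ψ, |ψ (p - x)| < μ) ∧ ‖p - (x + w)‖ < κ ∧ φ p < φ x + g := by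
  obtain ⟨h1, ⟨-, h2, h3⟩ | ⟨h2, h3⟩⟩ := h
  · exact ⟨h1, h2, h3⟩
  · exact ⟨h1, by linarith, by linarith⟩

/-- base points stay base points -/
lemma LC.base_of_slack {φ : Seminorm ℝ X} {Ψ : Finset (X →L[ℝ] ℝ)} {μ R δ K : ℝ} {x p : X}
    (h1 : ∀ ψ ∈ Ψ, |ψ (p - x)| < μ) (h2 : ‖p - x‖ + δ ≤ R)
    (h : ∀ y, ‖y - x‖ ≤ R → Nb Ψ μ x y → ¬ Gained φ K y) : Base φ p δ := by
  obtain ⟨ν, hν, h3⟩ := slack h1
  refine ⟨K, Ψ, ν, hν, fun y hy1 hy2 => h y ?_ ?_⟩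
  · have h4 : y - x = (y - p) + (p - x) := by abel
    rw [h4]
    exact (norm_add_le _ _).trans (by linarith)
  · intro ψ hψ
    refine (h3 (y - x) ?_ ψ hψ).le
    intro ψ' hψ'
    have h4 : y - x - (p - x) = y - p := by abel
    rw [h4]
    exact hy2 ψ' hψ'

/-- Preparation of one position: after an individual shift it is a base point or a tame point of
smaller rank. -/
lemma LC.prepare {φ : Seminorm ℝ X} (hφ : ∀ x, φ x ≤ ‖x‖) {α : Ordinal.{u}}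
    {Ψ : Finset (X →L[ℝ] ℝ)} {μ R κ g δ : ℝ} {x w p : X}
    (hδ : 0 < δ) (hδμ : δ ≤ μ) (hgμ : g ≤ μ) (hR : ‖w‖ + κ + δ ≤ R)
    (G : X → Prop)
    (hG : (∃ K : ℝ, ∀ y, ‖y - x‖ ≤ R → Nb Ψ μ x y → ¬ Gained φ K y) ∨
      ∃ k : ℕ, G = Gained φ k ∧ ∀ y, ‖y - x‖ ≤ R → Nb Ψ μ x y → φ y ≤ φ x + μ → Gained φ k y →
        ∃ β < α, Tame φ β (k + 1) y μ)
    (h : LC.Inv φ Ψ μ κ g δ G x w p) :
    ∃ p', LC.Inv φ Ψ μ κ g δ G x w p' ∧ (Base φ p' δ ∨ ∃ β < α, ∃ k', Tame φ β k' p' δ) := by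
  obtain ⟨hw1, hw2, hw3⟩ := h.weak hδ
  have hpx : ‖p - x‖ ≤ ‖w‖ + κ := by
    have h4 : p - x = (p - (x + w)) + w := by abel
    rw [h4]
    exact (norm_add_le _ _).trans (by linarith)
  rcases hG with ⟨K, hK⟩ | ⟨k, rfl, hk⟩
  · exact ⟨p, h, Or.inl (LC.base_of_slack hw1 (by linarith) hK)⟩
  · obtain ⟨h1, ⟨h2, h3, h4⟩ | ⟨h3, h4⟩⟩ := h
    · refine ⟨p, ⟨h1, Or.inl ⟨h2, h3, h4⟩⟩, Or.inr ?_⟩
      obtain ⟨β, hβ, ht⟩ := hk p (by linarith) (fun ψ hψ => (h1 ψ hψ).le) (by linarith) h2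
      exact ⟨β, hβ, k + 1, ht.mono le_rfl hδμ⟩
    · by_cases hb : Base φ p δ
      · exact ⟨p, ⟨h1, Or.inr ⟨h3, h4⟩⟩, Or.inl hb⟩
      · obtain ⟨ν, hν, h5⟩ := slack h1
        have h6 : ∃ y, ‖y - p‖ ≤ δ ∧ Nb Ψ ν p y ∧ Gained φ k y := by
          by_contra hcon
          push Not at hcon
          exact hb ⟨k, Ψ, ν, hν, hcon⟩
        obtain ⟨y, hy1, hy2, hy3⟩ := h6
        have h7 : ∀ ψ ∈ Ψ, |ψ (y - x)| < μ := by
          refine h5 (y - x) ?_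
          intro ψ' hψ'
          have h4 : y - x - (p - x) = y - p := by abel
          rw [h4]
          exact hy2 ψ' hψ'
        have h8 : ‖y - (x + w)‖ < κ := by
          have h9 : y - (x + w) = (y - p) + (p - (x + w)) := by abel
          rw [h9]
          exact (norm_add_le _ _).trans_lt (by linarith)
        have h9 : φ y < φ x + g := (phi_le hφ p y).trans_lt (by linarith)
        refine ⟨y, ⟨h7, Or.inl ⟨hy3, h8, h9⟩⟩, Or.inr ?_⟩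
        have h10 : ‖y - x‖ ≤ R := by
          have h11 : y - x = (y - p) + (p - x) := by abel
          rw [h11]
          exact (norm_add_le _ _).trans (by linarith)
        obtain ⟨β, hβ, ht⟩ := hk y h10 (fun ψ hψ => (h7 ψ hψ).le) (by linarith) hy3
        exact ⟨β, hβ, k + 1, ht.mono le_rfl hδμ⟩

/-- one move does not destroy the invariant -/
lemma LC.inv_stable {φ : Seminorm ℝ X}
    {Ψ : Finset (X →L[ℝ] ℝ)} {μ κ g δ : ℝ} {x w p : X} (G : X → Prop)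
    (hG : ∀ y, G y → ∃ (Ψ' : Finset (X →L[ℝ] ℝ)) (ν : ℝ), 0 < ν ∧
      ∀ x', Nb Ψ' ν y x' → φ x' ≤ φ y + ν → G x')
    (h : LC.Inv φ Ψ μ κ g δ G x w p) :
    ∃ (Ψ' : Finset (X →L[ℝ] ℝ)) (ν : ℝ), 0 < ν ∧
      ∀ v x' : X, ‖x' - (p + v)‖ ≤ ν → Nb Ψ' ν p x' → φ x' ≤ φ p + ν →
        LC.Inv φ Ψ μ κ g δ G x (w + v) x' := by
  classical
  obtain ⟨h1, h2⟩ := h
  obtain ⟨ν₁, hν₁, h3⟩ := slack h1
  have hfar : ∀ x', Nb Ψ ν₁ p x' → ∀ ψ ∈ Ψ, |ψ (x' - x)| < μ := by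
    intro x' hx'
    refine h3 (x' - x) ?_
    intro ψ' hψ'
    have h4 : x' - x - (p - x) = x' - p := by abel
    rw [h4]
    exact hx' ψ' hψ'
  have hpos : ∀ v x' : X, ∀ ν : ℝ, ‖x' - (p + v)‖ ≤ ν →
      ‖x' - (x + (w + v))‖ ≤ ν + ‖p - (x + w)‖ := by
    intro v x' ν hx'
    have h4 : x' - (x + (w + v)) = (x' - (p + v)) + (p - (x + w)) := by abel
    rw [h4]
    exact (norm_add_le _ _).trans (by linarith)
  rcases h2 with ⟨h2, h4, h5⟩ | ⟨h4, h5⟩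
  · obtain ⟨Ψ₂, ν₂, hν₂, h6⟩ := hG p h2
    refine ⟨Ψ ∪ Ψ₂, min (min ν₁ ν₂) (min ((κ - ‖p - (x + w)‖) / 2) ((φ x + g - φ p) / 2)),
      lt_min (lt_min hν₁ hν₂) (lt_min (by linarith) (by linarith)), ?_⟩
    intro v x' h7 h8 h9
    set ν := min (min ν₁ ν₂) (min ((κ - ‖p - (x + w)‖) / 2) ((φ x + g - φ p) / 2)) with hν
    have e1 : ν ≤ ν₁ := (min_le_left _ _).trans (min_le_left _ _)
    have e2 : ν ≤ ν₂ := (min_le_left _ _).trans (min_le_right _ _)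
    have e3 : ν ≤ (κ - ‖p - (x + w)‖) / 2 := (min_le_right _ _).trans (min_le_left _ _)
    have e4 : ν ≤ (φ x + g - φ p) / 2 := (min_le_right _ _).trans (min_le_right _ _)
    refine ⟨hfar x' (h8.mono Finset.subset_union_left e1), Or.inl ⟨?_, ?_, ?_⟩⟩
    · exact h6 x' (h8.mono Finset.subset_union_right e2) (h9.trans (by linarith))
    · have := hpos v x' ν h7
      linarith
    · linarith
  · refine ⟨Ψ, min ν₁ (min ((κ - δ - ‖p - (x + w)‖) / 2) ((φ x + g - δ - φ p) / 2)),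
      lt_min hν₁ (lt_min (by linarith) (by linarith)), ?_⟩
    intro v x' h7 h8 h9
    set ν := min ν₁ (min ((κ - δ - ‖p - (x + w)‖) / 2) ((φ x + g - δ - φ p) / 2)) with hν
    have e1 : ν ≤ ν₁ := min_le_left _ _
    have e3 : ν ≤ (κ - δ - ‖p - (x + w)‖) / 2 := (min_le_right _ _).trans (min_le_left _ _)
    have e4 : ν ≤ (φ x + g - δ - φ p) / 2 := (min_le_right _ _).trans (min_le_right _ _)
    refine ⟨hfar x' (h8.mono (Finset.Subset.refl _) e1), Or.inr ⟨?_, ?_⟩⟩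
    · have := hpos v x' ν h7
      linarith
    · linarith

/-- a common rank for a finite set -/
lemma LC.finite_sup {φ : Seminorm ℝ X} {α β₀ : Ordinal.{u}} (hβ₀ : β₀ < α) {δ : ℝ} {S : Set X}
    (hS : S.Finite) (h : ∀ p ∈ S, Base φ p δ ∨ ∃ β < α, ∃ k, Tame φ β k p δ) :
    ∃ α' < α, ∀ p ∈ S, ∃ k, Tame φ α' k p δ := by
  induction S, hS using Set.Finite.induction_on with
  | empty => exact ⟨β₀, hβ₀, by simp⟩
  | @insert x S hx hS ih =>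
    obtain ⟨α', hα', h1⟩ := ih fun y hy => h y (Set.mem_insert_of_mem x hy)
    rcases h x (Set.mem_insert x S) with h2 | ⟨β, hβ, k, hk⟩
    · refine ⟨α', hα', fun p hp => ?_⟩
      rcases Set.mem_insert_iff.1 hp with rfl | hp
      · exact ⟨0, Tame.base h2⟩
      · exact h1 p hp
    · refine ⟨max α' β, max_lt hα' hβ, fun p hp => ?_⟩
      rcases Set.mem_insert_iff.1 hp with rfl | hp
      · exact ⟨k, hk.mono (le_max_right _ _) le_rfl⟩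
      · obtain ⟨k', hk'⟩ := h1 p hp
        exact ⟨k', hk'.mono (le_max_left _ _) le_rfl⟩

lemma LC.exists_G {φ : Seminorm ℝ X} (hφ : ∀ x, φ x ≤ ‖x‖) {α : Ordinal.{u}} {R : ℝ} {x : X}
    {Ψ : Finset (X →L[ℝ] ℝ)} {μ : ℝ} (h : LC.Data φ α R x Ψ μ) :
    ∃ G : X → Prop,
      ((∃ K : ℝ, ∀ y, ‖y - x‖ ≤ R → Nb Ψ μ x y → ¬ Gained φ K y) ∨
        ∃ k : ℕ, G = Gained φ k ∧ ∀ y, ‖y - x‖ ≤ R → Nb Ψ μ x y → φ y ≤ φ x + μ →
          Gained φ k y → ∃ β < α, Tame φ β (k + 1) y μ) ∧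
      (∀ y, G y → ∃ (Ψ' : Finset (X →L[ℝ] ℝ)) (ν : ℝ), 0 < ν ∧
        ∀ x', Nb Ψ' ν y x' → φ x' ≤ φ y + ν → G x') := by
  rcases h with h | ⟨k, h⟩
  · exact ⟨fun _ => False, Or.inl h, fun y hy => hy.elim⟩
  · exact ⟨Gained φ k, Or.inr ⟨k, rfl, h⟩, fun y hy => hy.stable hφ⟩

end main

theorem movable_of_tame {X : Type u} [NormedAddCommGroup X] [NormedSpace ℝ X] [CompleteSpace X]
    (hc0 : ¬ ContainsC0 X) (htree : HasTrees X) (φ : Seminorm ℝ X) (hφ : ∀ x, φ x ≤ ‖x‖)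
    (α : Ordinal.{u}) : ∀ (S : Set X), S.Finite → ∀ R : ℝ, 0 < R →
      (∀ x ∈ S, ∃ k, Tame φ α k x R) → Movable φ S R := by
  classical
  induction α using WellFoundedLT.induction with
  | ind α ih =>
  intro S hS R hR hT Ψ₁ ε₁ g₁ κ₁ hε₁ hg₁ hκ₁
  obtain ⟨Ψ₀, μ₀, hμ₀, hD⟩ := unif (fun x Ψ μ => LC.Data φ α R x Ψ μ) LC.Data.mono hS
    (fun x hx => by obtain ⟨k, hk⟩ := hT x hx; exact LC.data_of_tame hk)
  obtain ⟨Ψ, hΨ₀, hΨ₁⟩ : ∃ Ψ : Finset (X →L[ℝ] ℝ), Ψ₀ ⊆ Ψ ∧ Ψ₁ ⊆ Ψ :=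
    ⟨Ψ₀ ∪ Ψ₁, Finset.subset_union_left, Finset.subset_union_right⟩
  obtain ⟨μ, hμ, hμ₀', hμ₁⟩ : ∃ μ : ℝ, 0 < μ ∧ μ ≤ μ₀ ∧ μ ≤ ε₁ :=
    ⟨min μ₀ ε₁, lt_min hμ₀ hε₁, min_le_left _ _, min_le_right _ _⟩
  obtain ⟨κ, hκ, hκ₁', hκR⟩ : ∃ κ : ℝ, 0 < κ ∧ κ ≤ κ₁ ∧ κ ≤ R / 8 :=
    ⟨min κ₁ (R / 8), lt_min hκ₁ (by positivity), min_le_left _ _, min_le_right _ _⟩
  obtain ⟨g, hg, hg₁', hgμ⟩ : ∃ g : ℝ, 0 < g ∧ g ≤ g₁ ∧ g ≤ μ :=
    ⟨min g₁ μ, lt_min hg₁ hμ, min_le_left _ _, min_le_right _ _⟩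
  obtain ⟨δ, hδ, hδκ, hδg, hδμ⟩ : ∃ δ : ℝ, 0 < δ ∧ δ ≤ κ / 4 ∧ δ ≤ g / 4 ∧ δ ≤ μ :=
    ⟨min (κ / 4) (min (g / 4) μ), lt_min (by positivity) (lt_min (by positivity) hμ),
      min_le_left _ _, (min_le_right _ _).trans (min_le_left _ _),
      (min_le_right _ _).trans (min_le_right _ _)⟩
  have hG : ∀ x ∈ S, ∃ G : X → Prop, _ := fun x hx => LC.exists_G hφ
    (LC.Data.mono x _ _ _ _ (hD x hx) hΨ₀ hμ hμ₀')
  choose! G hG1 hG2 using hG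
  by_contra hcon
  apply hc0
  refine containsC0_of_lists (fun l => (∀ z ∈ l, δ / 32 ≤ ‖z‖) ∧
    (∀ w ∈ SW l, ‖w‖ < R / 2 ∧ ∀ ψ ∈ Ψ, |ψ w| < μ) ∧
    ∀ x ∈ S, ∀ w ∈ SW l, ∃ p, LC.Inv φ Ψ μ κ g δ (G x) x w p) ?_ ?_ (δ / 32) (R / 2)
    (by positivity) ?_
  · refine ⟨by simp, ?_, ?_⟩
    · intro w hw
      have hw0 : w = 0 := hw
      subst hw0
      simpa using ⟨by positivity, fun _ _ => hμ⟩
    · intro x hx w hw
      have hw0 : w = 0 := hw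
      subst hw0
      refine ⟨x, ?_, Or.inr ⟨?_, ?_⟩⟩
      · intro ψ hψ
        simpa using hμ
      · simp only [add_zero, sub_self, norm_zero]
        linarith
      · linarith
  · rintro l ⟨hl1, hl2, hl3⟩
    have hp : ∀ x ∈ S, ∀ w ∈ SW l, ∃ p, LC.Inv φ Ψ μ κ g δ (G x) x w p ∧
        (Base φ p δ ∨ ∃ β < α, ∃ k, Tame φ β k p δ) := by
      intro x hx w hw
      obtain ⟨p, hp⟩ := hl3 x hx w hw
      exact LC.prepare hφ hδ hδμ hgμ (by linarith [(hl2 w hw).1]) (G x) (hG1 x hx) hp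
    choose! pp hpp1 hpp2 using hp
    have hfin : (Set.image2 pp S (SW l)).Finite := hS.image2 pp (SW_finite l)
    have hmov : Movable φ (Set.image2 pp S (SW l)) δ := by
      by_cases hall : ∀ p ∈ Set.image2 pp S (SW l), Base φ p δ
      · exact movable_of_base htree φ hφ _ hfin δ hδ hall
      · push Not at hall
        obtain ⟨p₀, hp₀, hb₀⟩ := hall
        have hall' : ∀ p ∈ Set.image2 pp S (SW l), Base φ p δ ∨
            ∃ β < α, ∃ k, Tame φ β k p δ := by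
          rintro p ⟨x, hx, w, hw, rfl⟩
          exact hpp2 x hx w hw
        obtain ⟨β₀, hβ₀, -⟩ := (hall' p₀ hp₀).resolve_left hb₀
        obtain ⟨α', hα', h1⟩ := LC.finite_sup hβ₀ hfin hall'
        exact ih α' hα' _ hfin δ hδ h1
    obtain ⟨Ψ₂, ν₂, hν₂, h2⟩ := unif (S := S ×ˢ SW l)
      (fun (a : X × X) Ψ' ν => ∀ v x' : X, ‖x' - (pp a.1 a.2 + v)‖ ≤ ν →
        Nb Ψ' ν (pp a.1 a.2) x' → φ x' ≤ φ (pp a.1 a.2) + ν →
        LC.Inv φ Ψ μ κ g δ (G a.1) a.1 (a.2 + v) x')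
      (fun a Ψ' Ψ'' ν ν' h hΨ _ hν v x' h1 h2 h3 =>
        h v x' (h1.trans hν) (h2.mono hΨ hν) (h3.trans (by linarith)))
      (hS.prod (SW_finite l))
      (fun a ha => LC.inv_stable (G a.1) (hG2 a.1 ha.1) (hpp1 a.1 ha.1 a.2 ha.2))
    obtain ⟨Ψ₃, ν₃, hν₃, h3⟩ := unif (S := SW l)
      (fun w (_ : Finset (X →L[ℝ] ℝ)) ν => ∀ v : X, (∀ ψ ∈ Ψ, |ψ v| ≤ ν) →
        ∀ ψ ∈ Ψ, |ψ (w + v)| < μ)
      (fun w _ _ ν ν' h _ _ hν v hv => h v fun ψ hψ => (hv ψ hψ).trans hν)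
      (SW_finite l)
      (fun w hw => by
        obtain ⟨ν, hν, h⟩ := slack (hl2 w hw).2
        refine ⟨∅, ν, hν, fun v hv => h (w + v) ?_⟩
        intro ψ hψ
        rw [add_sub_cancel_left]
        exact hv ψ hψ)
    obtain ⟨z, hz1, hz2, hz3, hz4⟩ := hmov (Ψ ∪ Ψ₂) (min ν₂ ν₃) (min ν₂ ν₃) (min ν₂ ν₃)
      (lt_min hν₂ hν₃) (lt_min hν₂ hν₃) (lt_min hν₂ hν₃)
    have hinv : ∀ x ∈ S, ∀ w ∈ SW (z :: l), ∃ p, LC.Inv φ Ψ μ κ g δ (G x) x w p := by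
      intro x hx w' hw'
      obtain ⟨w, hw, σ, hσ, rfl⟩ := mem_SW_cons hw'
      obtain ⟨x', h5, h6, h7⟩ := hz4 (pp x w) ⟨x, hx, w, hw, rfl⟩ σ hσ
      exact ⟨x', h2 (x, w) ⟨hx, hw⟩ (σ • z) x' (h5.trans (min_le_left _ _))
        (h6.mono Finset.subset_union_right (min_le_left _ _))
        (h7.trans (by linarith [min_le_left ν₂ ν₃]))⟩
    have hfar : ∀ w ∈ SW (z :: l), ∀ ψ ∈ Ψ, |ψ w| < μ := by
      intro w' hw'
      obtain ⟨w, hw, σ, hσ, rfl⟩ := mem_SW_cons hw'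
      refine h3 w hw (σ • z) ?_
      intro ψ hψ
      have h8 := (hz3 ψ (Finset.mem_union_left _ hψ)).trans (min_le_right _ _)
      rcases hσ with rfl | rfl
      · rwa [one_smul]
      · rwa [neg_one_smul, map_neg, abs_neg]
    have hle : ∀ w ∈ SW (z :: l), ‖w‖ ≤ R := by
      intro w' hw'
      obtain ⟨w, hw, σ, hσ, rfl⟩ := mem_SW_cons hw'
      have h8 : ‖σ • z‖ = ‖z‖ := by
        rcases hσ with rfl | rfl
        · rw [one_smul]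
        · rw [neg_one_smul, norm_neg]
      have h9 := norm_add_le w (σ • z)
      have h10 := (hl2 w hw).1
      rw [h8] at h9
      linarith
    refine ⟨z, ?_, ?_, hinv⟩
    · intro z' hz'
      rcases List.mem_cons.1 hz' with rfl | hz'
      · exact hz1
      · exact hl1 z' hz'
    · intro w hw
      refine ⟨?_, hfar w hw⟩
      by_contra hw2
      push Not at hw2
      refine hcon ⟨w, by linarith, hle w hw, fun ψ hψ => ((hfar w hw ψ (hΨ₁ hψ)).le).trans hμ₁,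
        ?_⟩
      intro x hx σ hσ
      obtain ⟨p, hp⟩ := hinv x hx (σ • w) (SW_sgn _ hw hσ)
      obtain ⟨h5, h6, h7⟩ := hp.weak hδ
      exact ⟨p, h6.le.trans hκ₁', fun ψ hψ => ((h5 ψ (hΨ₁ hψ)).le).trans hμ₁, by linarith⟩
  · rintro l ⟨hl1, hl2, -⟩
    exact ⟨hl1, fun w hw => (hl2 w hw).1.le⟩

end Pool.Agent.Helper34.TG
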