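import Pool.Agent.Helper40.TGF.LemC

/-!
Module LemD (owner: helper40).  There is a point which is not tame.
-/

set_option autoImplicit false

open Filter Topology

namespace Pool.Agent.Helper34.TG

universe u

/-- a common rank for a finite set of tame points -/
lemma LD.finite_sup {X : Type u} [NormedAddCommGroup X] [NormedSpace ℝ X] {φ : Seminorm ℝ X}
    {R : ℝ} {S : Set X} (hS : S.Finite) (h : ∀ p ∈ S, ∃ α : Ordinal.{u}, Tame φ α 0 p R) :
    ∃ α : Ordinal.{u}, ∀ p ∈ S, ∃ k, Tame φ α k p R := by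
  induction S, hS using Set.Finite.induction_on with
  | empty => exact ⟨0, by simp⟩
  | @insert x S hx hS ih =>
    obtain ⟨α', h1⟩ := ih fun y hy => h y (Set.mem_insert_of_mem x hy)
    obtain ⟨β, hk⟩ := h x (Set.mem_insert x S)
    refine ⟨max α' β, fun p hp => ?_⟩
    rcases Set.mem_insert_iff.1 hp with rfl | hp
    · exact ⟨0, hk.mono (le_max_right _ _) le_rfl⟩
    · obtain ⟨k', hk'⟩ := h1 p hp
      exact ⟨k', hk'.mono (le_max_left _ _) le_rfl⟩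

theorem exists_not_tame {X : Type u} [NormedAddCommGroup X] [NormedSpace ℝ X] [CompleteSpace X]
    (hc0 : ¬ ContainsC0 X) (htree : HasTrees X) (φ : Seminorm ℝ X) (hφ : ∀ x, φ x ≤ ‖x‖)
    (c : ℝ) (hc : 0 < c) (hcφ : ∀ x, c * ‖x‖ ≤ φ x) (x₀ : X) (hx₀ : x₀ ≠ 0) (R : ℝ) (hR : 0 < R) :
    ∃ x, φ x₀ / 2 < φ x ∧ ∀ α : Ordinal.{u}, ¬ Tame φ α 0 x R := by
  classical
  by_contra hcon
  push Not at hcon
  apply hc0
  have hpos : 0 < φ x₀ := (mul_pos hc (norm_pos_iff.2 hx₀)).trans_le (hcφ x₀)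
  obtain ⟨f, hf1, hf2⟩ := exists_subgradient φ hφ x₀
  let Inv : X → X → Prop := fun w p => ‖p - (x₀ + w)‖ < 1 ∧ φ p < φ x₀ + 1 ∧ φ x₀ / 2 < f p
  refine containsC0_of_lists (fun l => (∀ z ∈ l, R / 32 ≤ ‖z‖) ∧
    ∀ w ∈ SW l, ∃ p, Inv w p) ?_ ?_ (R / 32) ((φ x₀ + 1) / c + ‖x₀‖ + 1) (by positivity) ?_
  · refine ⟨by simp, ?_⟩
    intro w hw
    have hw0 : w = 0 := hw
    subst hw0
    exact ⟨x₀, by simp, by linarith, by rw [hf1]; linarith⟩
  · rintro l ⟨hl1, hl2⟩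
    choose! pp hpp using hl2
    have hfin : (pp '' SW l).Finite := (SW_finite l).image pp
    obtain ⟨α, hα⟩ := LD.finite_sup (R := R) hfin (fun p hp => by
      obtain ⟨w, hw, rfl⟩ := hp
      exact hcon _ ((hpp w hw).2.2.trans_le (hf2 _)))
    have hmov : Movable φ (pp '' SW l) R := movable_of_tame hc0 htree φ hφ α _ hfin R hR hα
    obtain ⟨Ψ, ν, hν, h2⟩ := unif (S := SW l)
      (fun w (Ψ : Finset (X →L[ℝ] ℝ)) ν => ∀ v x' : X, ‖x' - (pp w + v)‖ ≤ ν →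
        Nb Ψ ν (pp w) x' → φ x' ≤ φ (pp w) + ν → Inv (w + v) x')
      (fun w Ψ' Ψ'' ν ν' h hΨ _ hν v x' h1 h2 h3 =>
        h v x' (h1.trans hν) (h2.mono hΨ hν) (h3.trans (by linarith)))
      (SW_finite l)
      (fun w hw => by
        obtain ⟨h1, h2, h3⟩ := hpp w hw
        refine ⟨{f}, min ((1 - ‖pp w - (x₀ + w)‖) / 2)
          (min ((φ x₀ + 1 - φ (pp w)) / 2) ((f (pp w) - φ x₀ / 2) / 2)),
          lt_min (by linarith) (lt_min (by linarith) (by linarith)), ?_⟩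
        intro v x' h4 h5 h6
        set ν := min ((1 - ‖pp w - (x₀ + w)‖) / 2)
          (min ((φ x₀ + 1 - φ (pp w)) / 2) ((f (pp w) - φ x₀ / 2) / 2)) with hν
        have e1 : ν ≤ (1 - ‖pp w - (x₀ + w)‖) / 2 := min_le_left _ _
        have e2 : ν ≤ (φ x₀ + 1 - φ (pp w)) / 2 := (min_le_right _ _).trans (min_le_left _ _)
        have e3 : ν ≤ (f (pp w) - φ x₀ / 2) / 2 := (min_le_right _ _).trans (min_le_right _ _)
        refine ⟨?_, by linarith, ?_⟩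
        · have h7 : x' - (x₀ + (w + v)) = (x' - (pp w + v)) + (pp w - (x₀ + w)) := by abel
          rw [h7]
          exact (norm_add_le _ _).trans_lt (by linarith)
        · have h7 := (abs_le.1 (h5 f (by simp))).1
          rw [map_sub] at h7
          linarith)
    obtain ⟨z, hz1, hz2, hz3, hz4⟩ := hmov Ψ ν ν ν hν hν hν
    refine ⟨z, ?_, ?_⟩
    · intro z' hz'
      rcases List.mem_cons.1 hz' with rfl | hz'
      · exact hz1
      · exact hl1 z' hz'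
    · intro w' hw'
      obtain ⟨w, hw, σ, hσ, rfl⟩ := mem_SW_cons hw'
      obtain ⟨x', h5, h6, h7⟩ := hz4 (pp w) ⟨w, hw, rfl⟩ σ hσ
      exact ⟨x', h2 w hw (σ • z) x' h5 h6 h7⟩
  · rintro l ⟨hl1, hl2⟩
    refine ⟨hl1, fun w hw => ?_⟩
    obtain ⟨p, h1, h2, h3⟩ := hl2 w hw
    have h4 : ‖p‖ ≤ (φ x₀ + 1) / c := by
      rw [le_div_iff₀ hc, mul_comm]
      exact (hcφ p).trans h2.le
    have h5 : w = (p - x₀) - (p - (x₀ + w)) := by abel
    rw [h5]
    calc ‖(p - x₀) - (p - (x₀ + w))‖ ≤ ‖p - x₀‖ + ‖p - (x₀ + w)‖ := norm_sub_le _ _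
      _ ≤ (‖p‖ + ‖x₀‖) + 1 := add_le_add (norm_sub_le _ _) h1.le
      _ ≤ _ := by linarith

end Pool.Agent.Helper34.TG
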